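import Pool.Agent.Helper3.TG.GoalsTr

/-!
# Packet TG-LTRF (MP_a41896_nt): transfer of the centre, local form
-/

set_option autoImplicit false

open MvPolynomial

noncomputable section

namespace Pool.Agent.Helper79.TG.LTRF

open WeierstrassCurve Height
open Pool.Agent.Helper29.BL Pool.Agent.Helper92.Ru Pool.Agent.Helper42.SG
open Pool.Agent.Helper5.UN (hv CodimGT cH)
open Pool.Agent.Helper3.TG

section eqv

variable {σ : Type} [Fintype σ] [DecidableEq σ]

/-- the index set of the new variables -/
abbrev II (b : σ) : Finset (Option σ) := Finset.univ.erase (some b)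

/-- the new variables: `none` takes the place of `b` -/
def ev (b : σ) : {o : Option σ // o ∈ II b} ≃ σ where
  toFun o := o.1.elim b id
  invFun i := if h : i = b then ⟨none, by simp⟩ else ⟨some i, by simp [h]⟩
  left_inv := by
    rintro ⟨o, ho⟩
    cases o with
    | none => simp
    | some i =>
      have hi : i ≠ b := by
        intro h
        rw [h] at ho
        simp at ho
      simp [hi]
  right_inv := by
    intro i
    by_cases h : i = b
    · simp [h]
    · simp [h]

theorem upd_ev {K : Type} (b : σ) (x : σ → K) (y : K) (o : {o : Option σ // o ∈ II b}) :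
    Function.update x b y (ev b o) = o.1.elim y x := by
  obtain ⟨o, ho⟩ := o
  cases o with
  | none =>
    change Function.update x b y b = y
    rw [Function.update_self]
  | some i =>
    have hi : i ≠ b := by
      intro h
      rw [h] at ho
      simp at ho
    change Function.update x b y i = x i
    rw [Function.update_of_ne hi]

end eqv

theorem t (h1 : ENL) (h2 : LPRJ) (h3 : RENC) : Pool.Agent.Helper3.TG.LTRF := by
  classical
  intro K _ _ w hw σ _ _ D ι _ f hdeg hcod a b hab
  obtain ⟨D', ι', _, f', hdeg', hcod', hloc'⟩ := h1 K w hw σ D ι f hdeg hcod a b hab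
  have hcard : (II b).card = Fintype.card σ := by
    rw [Finset.card_erase_of_mem (Finset.mem_univ _), Finset.card_univ, Fintype.card_option]
    rfl
  have hpos : 1 ≤ Fintype.card σ := Fintype.card_pos_iff.2 ⟨b⟩
  obtain ⟨E, J, _, f'', B, hdeg'', hcod'', hB, hloc''⟩ := h2 K (Option σ) 2 D' ι' f' hdeg' hcod'
    (II b) (by rw [hcard, Fintype.card_option]) (by rw [hcard]; exact hpos)
  refine ⟨E, J, inferInstance, fun j => rename (ev b) (f'' j), B, ?_, ?_, hB, ?_⟩
  · intro j i
    obtain ⟨o, rfl⟩ := (ev b).surjective i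
    rw [degreeOf_rename_of_injective (ev b).injective]
    exact hdeg'' j o
  · exact h3 K _ σ (ev b) E 1 J f'' hcod''
  · intro v x y hTH
    have e1 : ∀ j, eval (Function.update x b y) (rename (ev b) (f'' j)) =
        eval (fun o : {o : Option σ // o ∈ II b} => (fun o : Option σ => o.elim y x) o.1)
          (f'' j) := by
      intro j
      rw [eval_rename]
      congr 2
      funext o
      exact upd_ev b x y o
    have e2 : ∏ o : {o : Option σ // o ∈ II b}, Mv v ((fun o : Option σ => o.elim y x) o.1) =
        ∏ i, Mv v (Function.update x b y i) := by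
      refine Fintype.prod_equiv (ev b) _ _ fun o => ?_
      rw [upd_ev b x y o]
    have e3 : ∏ o : Option σ, Mv v ((fun o : Option σ => o.elim y x) o) =
        Mv v y * ∏ i, Mv v (x i) := by
      rw [Fintype.prod_option]
      simp only [Option.elim_none, Option.elim_some]
    have k1 := hloc'' v (fun o : Option σ => o.elim y x)
    rw [e2, e3] at k1
    have k2 := hloc' v x y hTH
    simp only [e1]
    obtain ⟨A, hA⟩ : ∃ A, A = ∏ i, Mv v (x i) := ⟨_, rfl⟩
    obtain ⟨Y, hY⟩ : ∃ Y, Y = Mv v y := ⟨_, rfl⟩
    obtain ⟨A', hA'⟩ : ∃ A', A' = ∏ i, Mv v (Function.update x b y i) := ⟨_, rfl⟩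
    have hA0 : 0 < A := by rw [hA]; exact Finset.prod_pos fun i _ => Mv_pos v _
    have hY0 : 0 < Y := by rw [hY]; exact Mv_pos v _
    have hA'0 : 0 < A' := by rw [hA']; exact Finset.prod_pos fun i _ => Mv_pos v _
    have hB0 : 0 < B v := lt_of_lt_of_le one_pos (hB.one_le v)
    rw [← hA, ← hY, ← hA'] at k1
    rw [← hA, ← hY] at k2
    rw [← hA, ← hA']
    refine le_of_mul_le_mul_right (a := (Y * A) ^ D') ?_ (pow_pos (mul_pos hY0 hA0) D')
    have k3 := mul_le_mul_of_nonneg_right k1 (pow_pos hA0 D).le
    have k4 := mul_le_mul_of_nonneg_left k2 (mul_pos hB0 (pow_pos hA'0 E)).le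
    refine le_trans (le_of_eq (by ring)) (k3.trans (le_trans (le_of_eq (by ring)) (k4.trans
      (le_of_eq (by rw [mul_pow]; ring)))))

end Pool.Agent.Helper79.TG.LTRF
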